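import Pool.Agent.H70.OQ.Targets
import Pool.Agent.H70.PW.Targets

/-!
# CON: there is a configuration for which the algorithm errs
-/

set_option autoImplicit false

namespace Pool.Agent.H87.PW.CONF

open Finset Pool.Agent.H6.NB Pool.Agent.H70.OQ Pool.Agent.H70.PW

theorem ic_pos {p : Prop} (h : p) : ic p = 1 := by unfold ic; exact if_pos h

theorem ic_neg {p : Prop} (h : ¬ p) : ic p = 0 := by unfold ic; exact if_neg h

theorem ic_nonneg (p : Prop) : 0 ≤ ic p := by
  by_cases h : p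
  · rw [ic_pos h]; norm_num
  · rw [ic_neg h]

section gap

variable {B Ω ρ : Type} {nn qb : Ω → ℕ} [Fintype ρ]

theorem sum_bi (f : ρ → (PosG B Ω nn qb → Bool) → Bool) (y : PosG B Ω nn qb → Bool) :
    ∑ r, bi (f r y) = ((univ.filter fun r => f r y = true).card : ℝ) := by
  rw [Finset.card_filter]
  push_cast
  refine sum_congr rfl fun r _ => ?_
  unfold bi
  rfl

theorem gap_pos (f : ρ → (PosG B Ω nn qb → Bool) → Bool) (y : PosG B Ω nn qb → Bool)
    (h : Fintype.card ρ < 2 * (univ.filter fun r => f r y = true).card) : 1 ≤ gap f y := by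
  unfold gap
  rw [sum_bi]
  have h' : (Fintype.card ρ : ℝ) + 1 ≤ 2 * ((univ.filter fun r => f r y = true).card : ℝ) := by
    exact_mod_cast h
  linarith

theorem gap_neg (f : ρ → (PosG B Ω nn qb → Bool) → Bool) (y : PosG B Ω nn qb → Bool)
    (h : ¬ Fintype.card ρ < 2 * (univ.filter fun r => f r y = true).card) : gap f y ≤ -1 := by
  unfold gap
  rw [sum_bi]
  have h' : 2 * ((univ.filter fun r => f r y = true).card : ℝ) ≤ (Fintype.card ρ : ℝ) := by
    exact_mod_cast not_lt.1 h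
  linarith

theorem gap_le [Nonempty ρ] (f : ρ → (PosG B Ω nn qb → Bool) → Bool)
    (y : PosG B Ω nn qb → Bool) : gap f y ≤ 3 * Fintype.card ρ := by
  unfold gap
  rw [sum_bi]
  have h' : ((univ.filter fun r => f r y = true).card : ℝ) ≤ (Fintype.card ρ : ℝ) := by
    exact_mod_cast card_le_univ _
  have h1 : (0 : ℝ) ≤ (Fintype.card ρ : ℝ) := Nat.cast_nonneg _
  linarith

theorem le_gap [Nonempty ρ] (f : ρ → (PosG B Ω nn qb → Bool) → Bool)
    (y : PosG B Ω nn qb → Bool) : -(3 * (Fintype.card ρ : ℝ)) ≤ gap f y := by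
  unfold gap
  rw [sum_bi]
  have h' : (0 : ℝ) ≤ ((univ.filter fun r => f r y = true).card : ℝ) := Nat.cast_nonneg _
  have h1 : (1 : ℝ) ≤ (Fintype.card ρ : ℝ) := by exact_mod_cast Fintype.card_pos
  linarith

end gap

section main

variable {W X B Ω ρ : Type} {nn qb : Ω → ℕ} [Fintype Ω] [DecidableEq Ω] [Fintype ρ]

theorem Er_nonneg (w L : ℕ) (lx : X → Bool) (Tb : (X → Bool) → B → Bool)
    (D : Ω → (PosG B Ω nn qb → Bool) → Bool) (f : ρ → (PosG B Ω nn qb → Bool) → Bool) :
    0 ≤ Er w L lx Tb D f := by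
  unfold Er
  refine sum_nonneg fun I _ => ?_
  refine mul_nonneg (div_nonneg ?_ (by positivity)) (by positivity)
  exact sum_nonneg fun e _ => sum_nonneg fun P _ => mul_nonneg (abs_nonneg _) (ic_nonneg _)

theorem sum_w (h5 : T_NUC) (her : ∀ s, er (qb s) (nn s) < 1) (κ : Ω → Bool) :
    ∑ P : Blk nn qb, ∏ s, nuc (κ s) (qb s) (nn s) (P s) = 1 := by
  have h := Finset.prod_univ_sum (fun s : Ω => (univ : Finset (Fin (nn s) → VV (qb s) → Bool)))
    (fun s p => nuc (κ s) (qb s) (nn s) p)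
  rw [Fintype.piFinset_univ] at h
  rw [← h]
  exact prod_eq_one fun s _ => (h5 (κ s) (qb s) (nn s) (her s)).2.1

theorem REx_keys (h6 : T_CHG) (h7 : T_MEG) (D : Ω → (PosG B Ω nn qb → Bool) → Bool)
    (f : ρ → (PosG B Ω nn qb → Bool) → Bool) (lev : Ω → ℕ) (S t d h : ℕ) (hS : Syg D lev S t d h)
    (T : B → Bool) : REx D f T = (∑ κ : Ω → Bool, ∑ P : Blk nn qb,
      (∏ s, nuc (κ s) (qb s) (nn s) (P s)) * gap f (vlG T (elG (accG D P) T κ h) P)) /
        2 ^ Fintype.card Ω := by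
  unfold REx
  congr 1
  rw [sum_comm]
  conv_rhs => rw [sum_comm]
  refine sum_congr rfl fun P _ => ?_
  exact (h6 B Ω (accG D P) lev h T (fun κ e => (∏ s, nuc (κ s) (qb s) (nn s) (P s)) *
    gap f (vlG T e P)) (h7 B Ω nn qb D lev S t d h hS P).1).symm

theorem REx_le (h5 : T_NUC) (h6 : T_CHG) (h7 : T_MEG) (D : Ω → (PosG B Ω nn qb → Bool) → Bool)
    (f : ρ → (PosG B Ω nn qb → Bool) → Bool) (lev : Ω → ℕ) (S t d h : ℕ) (hS : Syg D lev S t d h)
    (her : ∀ s, er (qb s) (nn s) < 1) (T : B → Bool) (a : ℝ)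
    (ha : ∀ (κ : Ω → Bool) (P : Blk nn qb), (∀ s, DecA (qb s) (nn s) (κ s) (P s)) →
      gap f (vlG T (elG (accG D P) T κ h) P) ≤ a) : REx D f T ≤ a := by
  rw [REx_keys h6 h7 D f lev S t d h hS T, div_le_iff₀ (by positivity)]
  calc _ ≤ ∑ κ : Ω → Bool, ∑ P : Blk nn qb, (∏ s, nuc (κ s) (qb s) (nn s) (P s)) * a := by
        refine sum_le_sum fun κ _ => sum_le_sum fun P _ => ?_
        by_cases h0 : ∏ s, nuc (κ s) (qb s) (nn s) (P s) = 0
        · rw [h0, zero_mul, zero_mul]
        · refine mul_le_mul_of_nonneg_left (ha κ P fun s => ?_) (prod_nonneg fun s _ =>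
            (h5 (κ s) (qb s) (nn s) (her s)).1 _)
          exact (h5 (κ s) (qb s) (nn s) (her s)).2.2.1 _ (prod_ne_zero_iff.1 h0 s (mem_univ s))
    _ = a * 2 ^ Fintype.card Ω := by
        simp_rw [← sum_mul]
        rw [sum_congr rfl fun κ _ => sum_w h5 her κ]
        simp [mul_comm]

theorem le_REx (h5 : T_NUC) (h6 : T_CHG) (h7 : T_MEG) (D : Ω → (PosG B Ω nn qb → Bool) → Bool)
    (f : ρ → (PosG B Ω nn qb → Bool) → Bool) (lev : Ω → ℕ) (S t d h : ℕ) (hS : Syg D lev S t d h)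
    (her : ∀ s, er (qb s) (nn s) < 1) (T : B → Bool) (a : ℝ)
    (ha : ∀ (κ : Ω → Bool) (P : Blk nn qb), (∀ s, DecA (qb s) (nn s) (κ s) (P s)) →
      a ≤ gap f (vlG T (elG (accG D P) T κ h) P)) : a ≤ REx D f T := by
  rw [REx_keys h6 h7 D f lev S t d h hS T, le_div_iff₀ (by positivity)]
  calc a * 2 ^ Fintype.card Ω = ∑ κ : Ω → Bool, ∑ P : Blk nn qb,
        (∏ s, nuc (κ s) (qb s) (nn s) (P s)) * a := by
        simp_rw [← sum_mul]
        rw [sum_congr rfl fun κ _ => sum_w h5 her κ]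
        simp [mul_comm]
    _ ≤ _ := by
        refine sum_le_sum fun κ _ => sum_le_sum fun P _ => ?_
        by_cases h0 : ∏ s, nuc (κ s) (qb s) (nn s) (P s) = 0
        · rw [h0, zero_mul, zero_mul]
        · refine mul_le_mul_of_nonneg_left (ha κ P fun s => ?_) (prod_nonneg fun s _ =>
            (h5 (κ s) (qb s) (nn s) (her s)).1 _)
          exact (h5 (κ s) (qb s) (nn s) (her s)).2.2.1 _ (prod_ne_zero_iff.1 h0 s (mem_univ s))

end main

theorem con (h1 : T_EXQ) (h2 : T_APP) (h3 : T_AVG) (h4 : T_CHN) (h5 : T_NUC)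
    (h6 : Pool.Agent.H70.OQ.T_CHG) (h7 : Pool.Agent.H70.OQ.T_MEG) : T_CON := by
  intro W X B Ω ρ _ _ _ _ _ _ _ nn qb D f lev S t d h S' w L J Bd β ω lx Tb Rx Lst hS hf hω hω1 hβ
    hTb hS1 hS2 hSS hSt hL1 hLS hB1 hq her hFou hη hav hJ hJ1 hdis hlv hLst
  by_contra hcon
  push Not at hcon
  -- the choice of `p`
  have hp : ∃ p, Er w L (lx p) (Tb p) D f ≤ 1 / 4 ∧ ¬ ∃ j < J, ∃ c,
      ((Rx j c).filter fun x => lx p x = true).card < 100 * (L * w) ^ 2 + 1 := by
    by_contra hno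
    push Not at hno
    have hA := h3 W X B Ω ρ nn qb D f lev S t d h w L β ω lx Tb hS hf hω hβ hTb her
    have hone : ∀ p, ω p ≤ 4 * (ω p * Er w L (lx p) (Tb p) D f) + ω p * ic (∃ j < J, ∃ c,
        ((Rx j c).filter fun x => lx p x = true).card < 100 * (L * w) ^ 2 + 1) := by
      intro p
      have hE := Er_nonneg w L (lx p) (Tb p) D f
      have hw := hω p
      by_cases hc : Er w L (lx p) (Tb p) D f ≤ 1 / 4
      · rw [ic_pos (hno p hc)]
        have := mul_nonneg hw hE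
        linarith
      · push Not at hc
        have h0 := mul_nonneg hw (ic_nonneg (∃ j < J, ∃ c,
          ((Rx j c).filter fun x => lx p x = true).card < 100 * (L * w) ^ 2 + 1))
        have h1 : ω p * (1 / 4) ≤ ω p * Er w L (lx p) (Tb p) D f :=
          mul_le_mul_of_nonneg_left hc.le hw
        linarith
    have hsum := sum_le_sum fun (p : W) (_ : p ∈ univ) => hone p
    rw [sum_add_distrib, ← mul_sum, hω1] at hsum
    linarith
  obtain ⟨p, hEr, hlive⟩ := hp
  push Not at hlive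
  obtain ⟨g, hLo, hg⟩ := h2 X B Ω ρ nn qb D f w L (lx p) (Tb p)
  have hREx : ∀ b : X → Bool, (∀ x, lx p x = false → b x = true) →
      |REx D f (Tb p b) - g b| ≤ 1 / 2 := by
    intro b hb
    have ha := h1 B Ω ρ nn qb D f lev S t d h S' L Bd (Tb p b) hS hf hS1 hS2 hSS hSt hL1 hLS hB1 hq
      her hFou
    have hb' := hg b hb
    rw [abs_le] at ha hb' ⊢
    constructor <;> linarith [ha.1, ha.2, hb'.1, hb'.2]
  have hpos : ∀ b, Lst b → 1 ≤ REx D f (Tb p b) := by
    intro b hb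
    refine le_REx h5 h6 h7 D f lev S t d h hS her _ _ fun κ P hD => gap_pos _ _ ?_
    exact (hcon p b κ P hD).2 hb
  have hneg : ∀ b, ¬ Lst b → REx D f (Tb p b) ≤ -1 := by
    intro b hb
    refine REx_le h5 h6 h7 D f lev S t d h hS her _ _ fun κ P hD => gap_neg _ _ ?_
    exact fun hlt => hb ((hcon p b κ P hD).1 hlt)
  have habs : ∀ b, |REx D f (Tb p b)| ≤ 3 * Fintype.card ρ := by
    intro b
    rw [abs_le]
    exact ⟨le_REx h5 h6 h7 D f lev S t d h hS her _ _ fun κ P hD => le_gap _ _,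
      REx_le h5 h6 h7 D f lev S t d h hS her _ _ fun κ P hD => gap_le _ _⟩
  have hTp : ∀ j < J, ∀ c b, Tp (fun j c => (Rx j c).filter fun x => lx p x = true) j c b →
      Tp Rx j c b ∧ ∀ x, lx p x = false → b x = true := by
    intro j hj c b hb
    obtain ⟨⟨x, hx, hbx⟩, hall⟩ := hb
    have hall' : ∀ x, b x = false → lx p x = true := by
      intro x hx
      rcases hall x hx with h | ⟨j', _, c', h⟩
      · exact (mem_filter.1 h).2
      · exact (mem_filter.1 h).2
    refine ⟨⟨⟨x, (mem_filter.1 hx).1, hbx⟩, fun x hx => ?_⟩, fun x hx => ?_⟩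
    · rcases hall x hx with h | ⟨j', hj', c', h⟩
      · exact Or.inl (mem_filter.1 h).1
      · exact Or.inr ⟨j', hj', c', (mem_filter.1 h).1⟩
    · by_contra hbx
      have := hall' x (by simpa using hbx)
      rw [hx] at this
      exact absurd this (by simp)
  obtain ⟨b, hb, hbig⟩ := h4 X (L * w) J g (fun j c => (Rx j c).filter fun x => lx p x = true) hLo hJ1
    (fun j hj c => hlive j hj c)
    (fun j hj j' hj' c c' x hx hx' => hdis j hj j' hj' c c' x (mem_filter.1 hx).1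
      (mem_filter.1 hx').1)
    (by
      intro j hj c b hT
      obtain ⟨hT1, hT2⟩ := hTp j hj c b hT
      have hl := hLst j hj c b hT1
      have ha := abs_le.1 (hREx b hT2)
      cases c with
      | true =>
        have := hpos b (hl.2 rfl)
        simp only [if_true]
        linarith [ha.1, ha.2]
      | false =>
        have := hneg b (fun hL => by simpa using hl.1 hL)
        simp only [Bool.false_eq_true, if_false]
        linarith [ha.1, ha.2])
  have hb2 : ∀ x, lx p x = false → b x = true := by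
    intro x hx
    by_contra hbx
    obtain ⟨j, _, c, hm⟩ := hb x (by simpa using hbx)
    rw [mem_filter, hx] at hm
    exact absurd hm.2 (by simp)
  have ha := abs_le.1 (hREx b hb2)
  have hb3 := abs_le.1 (habs b)
  have hc1 : (1 : ℝ) ≤ (Fintype.card ρ : ℝ) := by exact_mod_cast Fintype.card_pos
  have hgb : |g b| ≤ 3 * Fintype.card ρ + 1 / 2 := by
    rw [abs_le]
    constructor <;> linarith [ha.1, ha.2, hb3.1, hb3.2]
  linarith

end Pool.Agent.H87.PW.CONF
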