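import Pool.Agent.H70.PW.Targets

/-!
# PRP: the parameters of the stage
-/

set_option autoImplicit false

namespace Pool.Agent.H87.PW.PRP

open Finset Filter Pool.Agent.H6.NB Pool.Agent.H70.OQ Pool.Agent.H70.PW

theorem lin_pow (c m : ℕ) (hm : 6 * c + 2 ≤ m) : c * m ≤ 2 ^ m := by
  obtain ⟨u, hu⟩ : ∃ u, u = m / 2 := ⟨_, rfl⟩
  have h1 : m ≤ 3 * u := by omega
  have h2 : 3 * c ≤ u := by omega
  have h3 : 2 * u ≤ m := by omega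
  have h4 : u ≤ 2 ^ u := Nat.lt_two_pow_self.le
  calc c * m ≤ c * (3 * u) := Nat.mul_le_mul_left c h1
    _ = (3 * c) * u := by ring
    _ ≤ u * u := Nat.mul_le_mul_right u h2
    _ ≤ 2 ^ u * 2 ^ u := Nat.mul_le_mul h4 h4
    _ = 2 ^ (2 * u) := by rw [← pow_add, two_mul]
    _ ≤ 2 ^ m := Nat.pow_le_pow_right (by norm_num) h3

theorem ev1 (c n : ℕ) (hn : 16 * (192 * c + 2) ≤ n) : c * n + c ≤ 2 ^ (n / 16) := by
  obtain ⟨m, hm⟩ : ∃ m, m = n / 16 := ⟨_, rfl⟩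
  have h1 : n + 1 ≤ 32 * m := by omega
  have h2 : 6 * (32 * c) + 2 ≤ m := by omega
  rw [← hm]
  calc c * n + c = c * (n + 1) := by ring
    _ ≤ c * (32 * m) := Nat.mul_le_mul_left c h1
    _ = 32 * c * m := by ring
    _ ≤ 2 ^ m := lin_pow _ _ h2

theorem ev2 (c n : ℕ) (hn : 16 * (192 * c + 2) ≤ n) : c * n * (2 ^ (n / 16)) ^ 12 ≤ 2 ^ n := by
  have h1 : c * n ≤ 2 ^ (n / 16) := le_trans (Nat.le_add_right _ _) (ev1 c n hn)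
  calc c * n * (2 ^ (n / 16)) ^ 12 ≤ 2 ^ (n / 16) * (2 ^ (n / 16)) ^ 12 :=
        Nat.mul_le_mul_right _ h1
    _ = 2 ^ (n / 16 * 13) := by rw [← pow_succ', ← pow_mul]
    _ ≤ 2 ^ n := Nat.pow_le_pow_right (by norm_num) (by omega)

theorem exp_bd (w n : ℕ) (hw : 1 ≤ w) : (1 - 1 / (64 * (w : ℝ))) ^ (64 * w * n) ≤ 1 / 2 ^ n := by
  have hw' : (1 : ℝ) ≤ w := by exact_mod_cast hw
  have h0 : (0 : ℝ) ≤ 1 - 1 / (64 * (w : ℝ)) := by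
    rw [sub_nonneg, div_le_one (by positivity)]
    linarith
  have h1 : 1 - 1 / (64 * (w : ℝ)) ≤ Real.exp (-(1 / (64 * (w : ℝ)))) := by
    have := Real.add_one_le_exp (-(1 / (64 * (w : ℝ))))
    linarith
  have h2 : Real.exp (-1) ≤ 1 / 2 := by
    rw [Real.exp_neg, ← one_div]
    refine one_div_le_one_div_of_le (by norm_num) ?_
    have := Real.add_one_le_exp (1 : ℝ)
    linarith
  rw [pow_mul]
  calc ((1 - 1 / (64 * (w : ℝ))) ^ (64 * w)) ^ n ≤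
        (Real.exp (-(1 / (64 * (w : ℝ)))) ^ (64 * w)) ^ n := by
        refine pow_le_pow_left₀ (pow_nonneg h0 _) (pow_le_pow_left₀ h0 h1 _) _
    _ = Real.exp (-1) ^ n := by
        congr 1
        rw [← Real.exp_nat_mul]
        congr 1
        push_cast
        field_simp
    _ ≤ (1 / 2) ^ n := pow_le_pow_left₀ (Real.exp_pos _).le h2 _
    _ = 1 / 2 ^ n := by rw [one_div_pow]

/-- The least exponent. -/
theorem ex_a (n Y0 : ℕ) (hn : 2 ≤ n) (hY : n ≤ Y0) : ∃ a, Y0 ≤ n ^ 2 ^ a ∧ n ^ 2 ^ a ≤ Y0 ^ 2 := by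
  have hex : ∃ a, Y0 ≤ n ^ 2 ^ a := by
    refine ⟨Y0, ?_⟩
    calc Y0 ≤ 2 ^ Y0 := Nat.lt_two_pow_self.le
      _ ≤ 2 ^ 2 ^ Y0 := Nat.pow_le_pow_right (by norm_num) Nat.lt_two_pow_self.le
      _ ≤ n ^ 2 ^ Y0 := Nat.pow_le_pow_left hn _
  classical
  refine ⟨Nat.find hex, Nat.find_spec hex, ?_⟩
  rcases Nat.eq_zero_or_pos (Nat.find hex) with h0 | h0
  · rw [h0, pow_zero, pow_one]
    exact hY.trans (Nat.le_self_pow (by norm_num) _)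
  · have hmin := Nat.find_min hex (m := Nat.find hex - 1) (by omega)
    have he : 2 ^ Nat.find hex = 2 ^ (Nat.find hex - 1) * 2 := by
      rw [← pow_succ]
      congr 1
      omega
    rw [he, pow_mul]
    exact Nat.pow_le_pow_left (not_le.1 hmin).le 2

/-- The numeric bounds. -/
theorem nums (Z Y L M t n k : ℕ) (hZ : 20 ≤ Z) (hY : Y ≤ Z ^ 2) (hL : L ≤ Z) (hM : M ≤ Z)
    (ht : t ≤ Z) (hn : n ≤ Z) (hk : k + 5 ≤ Z) :
    2 * ((Y + 2) * L + L + 2 * M + 6) + (t + 1) * (k + 2) + 10 * n + 10 * k + 20 ≤ 5 * Z ^ 3 ∧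
    (10 * Y + 101 + L) * (2 * L) + (t + L + 1) * (k + 5) + 1 ≤ 22 * Z ^ 3 := by
  have h1 : 20 * Z ≤ Z ^ 2 := by rw [pow_two]; exact Nat.mul_le_mul_right Z hZ
  have h2 : 20 * Z ^ 2 ≤ Z ^ 3 := by
    rw [pow_succ Z 2, mul_comm (Z ^ 2) Z]; exact Nat.mul_le_mul_right _ hZ
  have a1 : (Y + 2) * L ≤ (Z ^ 2 + 2) * Z := Nat.mul_le_mul (by omega) hL
  have a2 : (t + 1) * (k + 2) ≤ (Z + 1) * Z := Nat.mul_le_mul (by omega) (by omega)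
  have a3 : (10 * Y + 101 + L) * (2 * L) ≤ (10 * Z ^ 2 + 101 + Z) * (2 * Z) :=
    Nat.mul_le_mul (by omega) (by omega)
  have a4 : (t + L + 1) * (k + 5) ≤ (Z + Z + 1) * Z := Nat.mul_le_mul (by omega) (by omega)
  have b1 : (Z ^ 2 + 2) * Z = Z ^ 3 + 2 * Z := by ring
  have b2 : (Z + 1) * Z = Z ^ 2 + Z := by ring
  have b3 : (10 * Z ^ 2 + 101 + Z) * (2 * Z) = 20 * Z ^ 3 + 202 * Z + 2 * Z ^ 2 := by ring
  have b4 : (Z + Z + 1) * Z = 2 * Z ^ 2 + Z := by ring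
  rw [b1] at a1
  rw [b2] at a2
  rw [b3] at a3
  rw [b4] at a4
  constructor <;> omega

/-- The bounds which need that `n` is large. -/
theorem big (Z L w n p J c0 X : ℕ) (hZ : 20 ≤ Z) (hL : L ≤ Z) (hw : w ≤ 5 * Z ^ 3) (hn : 1 ≤ n)
    (hJ : J ≤ Z) (hX : X ≤ Z) (hp : 2 ^ (p + 1) = 2 ^ (c0 + 1) * X) (hpn : p + 1 ≤ n)
    (hbig : 800320 * 2 ^ (c0 + 1) * Z ^ 12 * n ≤ 2 ^ n) :
    (64 * w * n) * (100 * (L * w) ^ 2 + 1) ≤ 2 ^ (n - p - 1) ∧ w ^ 3 ≤ 2 ^ n ∧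
    4 * (2 * J * (100 * (L * w) ^ 2 + 1)) ≤ 2 ^ n ∧ 22 * Z ^ 3 ≤ 2 ^ n := by
  have hZ1 : 1 ≤ Z := by omega
  have hc : 1 ≤ 2 ^ (c0 + 1) := Nat.one_le_two_pow
  have h1 : L * w ≤ 5 * Z ^ 4 := by
    calc L * w ≤ Z * (5 * Z ^ 3) := Nat.mul_le_mul hL hw
      _ = 5 * Z ^ 4 := by ring
  have h2 : 100 * (L * w) ^ 2 + 1 ≤ 2501 * Z ^ 8 := by
    have : (L * w) ^ 2 ≤ (5 * Z ^ 4) ^ 2 := Nat.pow_le_pow_left h1 2
    have h3 : (5 * Z ^ 4) ^ 2 = 25 * Z ^ 8 := by ring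
    have h4 : 1 ≤ Z ^ 8 := Nat.one_le_pow _ _ hZ1
    omega
  have hm : ∀ e, e ≤ 12 → ∀ c, c ≤ 800320 → c * Z ^ e ≤ 2 ^ n := by
    intro e he c hc'
    calc c * Z ^ e ≤ 800320 * Z ^ 12 := Nat.mul_le_mul hc' (Nat.pow_le_pow_right hZ1 he)
      _ = 800320 * 1 * Z ^ 12 * 1 := by ring
      _ ≤ 800320 * 2 ^ (c0 + 1) * Z ^ 12 * n :=
        Nat.mul_le_mul (Nat.mul_le_mul_right _ (Nat.mul_le_mul_left _ hc)) hn
      _ ≤ 2 ^ n := hbig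
  refine ⟨?_, ?_, ?_, hm 3 (by norm_num) 22 (by norm_num)⟩
  · have hpow : 2 ^ (n - p - 1) * 2 ^ (p + 1) = 2 ^ n := by
      rw [← pow_add]
      congr 1
      omega
    have hpos : 0 < 2 ^ (p + 1) := by positivity
    refine Nat.le_of_mul_le_mul_right ?_ hpos
    rw [hpow]
    calc (64 * w * n) * (100 * (L * w) ^ 2 + 1) * 2 ^ (p + 1)
        ≤ (64 * (5 * Z ^ 3) * n) * (2501 * Z ^ 8) * (2 ^ (c0 + 1) * Z) := by
          rw [hp]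
          refine Nat.mul_le_mul (Nat.mul_le_mul (Nat.mul_le_mul_right _
            (Nat.mul_le_mul_left _ hw)) h2) (Nat.mul_le_mul_left _ hX)
      _ = 800320 * 2 ^ (c0 + 1) * Z ^ 12 * n := by ring
      _ ≤ 2 ^ n := hbig
  · calc w ^ 3 ≤ (5 * Z ^ 3) ^ 3 := Nat.pow_le_pow_left hw 3
      _ = 125 * Z ^ 9 := by ring
      _ ≤ 2 ^ n := hm 9 (by norm_num) 125 (by norm_num)
  · calc 4 * (2 * J * (100 * (L * w) ^ 2 + 1)) ≤ 4 * (2 * Z * (2501 * Z ^ 8)) :=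
          Nat.mul_le_mul_left _ (Nat.mul_le_mul (Nat.mul_le_mul_left _ hJ) h2)
      _ = 20008 * Z ^ 9 := by ring
      _ ≤ 2 ^ n := hm 9 (by norm_num) 20008 (by norm_num)

/-- The bound for the field `er`. -/
theorem er_bd (Y L M ρ : ℕ) (E : ℝ) (hM : 1 ≤ M) (hL : 1 ≤ L)
    (hρ : ρ = (Y + 2) * L + L + 2 * M + 6) (hE : E ≤ 1 / 4 ^ ρ) :
    (2 * ((2 : ℝ) ^ Y + 1)) ^ L * ((L : ℝ) + 2 ^ M) * (3 * 2 ^ M) * E ≤ 1 / 16 := by
  have h1 : 2 * ((2 : ℝ) ^ Y + 1) ≤ 2 ^ (Y + 2) := by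
    have : (1 : ℝ) ≤ 2 ^ Y := one_le_pow₀ (by norm_num)
    rw [pow_add]
    linarith
  have h2 : (2 * ((2 : ℝ) ^ Y + 1)) ^ L ≤ 2 ^ ((Y + 2) * L) := by
    rw [pow_mul]
    exact pow_le_pow_left₀ (by positivity) h1 L
  have h3 : (L : ℝ) + 2 ^ M ≤ 2 ^ (L + M) := by
    have hL' : (L : ℝ) ≤ 2 ^ L := by exact_mod_cast (Nat.lt_two_pow_self (n := L)).le
    have a1 : (2 : ℝ) ≤ 2 ^ L := by
      calc (2 : ℝ) = 2 ^ 1 := by norm_num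
        _ ≤ 2 ^ L := pow_le_pow_right₀ (by norm_num) hL
    have a2 : (2 : ℝ) ≤ 2 ^ M := by
      calc (2 : ℝ) = 2 ^ 1 := by norm_num
        _ ≤ 2 ^ M := pow_le_pow_right₀ (by norm_num) hM
    rw [pow_add]
    nlinarith
  have h4 : (3 : ℝ) * 2 ^ M ≤ 2 ^ (M + 2) := by
    have : (1 : ℝ) ≤ 2 ^ M := one_le_pow₀ (by norm_num)
    rw [pow_add]
    linarith
  have h5 : (2 * ((2 : ℝ) ^ Y + 1)) ^ L * ((L : ℝ) + 2 ^ M) * (3 * 2 ^ M) ≤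
      2 ^ ((Y + 2) * L) * 2 ^ (L + M) * 2 ^ (M + 2) := by
    gcongr
  have h6 : (2 : ℝ) ^ ((Y + 2) * L) * 2 ^ (L + M) * 2 ^ (M + 2) * 16 = 2 ^ ρ := by
    rw [show (16 : ℝ) = 2 ^ 4 by norm_num, ← pow_add, ← pow_add, ← pow_add, hρ]
    congr 1
    ring
  have h7 : (2 : ℝ) ^ ρ ≤ 4 ^ ρ := pow_le_pow_left₀ (by norm_num) (by norm_num) ρ
  calc (2 * ((2 : ℝ) ^ Y + 1)) ^ L * ((L : ℝ) + 2 ^ M) * (3 * 2 ^ M) * E
      ≤ (2 * ((2 : ℝ) ^ Y + 1)) ^ L * ((L : ℝ) + 2 ^ M) * (3 * 2 ^ M) * (1 / 4 ^ ρ) :=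
        mul_le_mul_of_nonneg_left hE (by positivity)
    _ ≤ 2 ^ ((Y + 2) * L) * 2 ^ (L + M) * 2 ^ (M + 2) * (1 / 4 ^ ρ) :=
        mul_le_mul_of_nonneg_right h5 (by positivity)
    _ = 2 ^ ρ / 16 * (1 / 4 ^ ρ) := by
        congr 1
        linarith
    _ = 1 / 16 * (2 ^ ρ / 4 ^ ρ) := by ring
    _ ≤ 1 / 16 * 1 := by
        refine mul_le_mul_of_nonneg_left ?_ (by norm_num)
        exact (div_le_one (by positivity)).2 h7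
    _ = 1 / 16 := by norm_num

/-- The bound for the Fourier coefficients. -/
theorem bl_bd (k Y L t j w' S' : ℕ) (hS' : S' = 2 ^ (t + L)) (hw' :
    w' = (10 * Y + 101 + L) * (2 * L) + (t + L + 1) * (k + 5) + 1) (hj1 : 1 ≤ j) (hj : j ≤ 2 * L) :
    (128 * (w' : ℝ)) ^ (j * (k + 5)) * ((w' : ℝ) ^ j +
      ((L : ℝ) * (2 * 2 ^ (10 * Y + 100))) ^ j * ((S' : ℝ) + 1) ^ (k + 5) / 2 ^ w') ≤
      ((128 * (w' : ℝ)) ^ (k + 6)) ^ j := by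
  have hw1 : (1 : ℝ) ≤ w' := by
    have : 1 ≤ w' := by rw [hw']; omega
    exact_mod_cast this
  have hL' : (L : ℝ) ≤ 2 ^ L := by exact_mod_cast (Nat.lt_two_pow_self (n := L)).le
  have h1 : ((L : ℝ) * (2 * 2 ^ (10 * Y + 100))) ^ j ≤ 2 ^ ((10 * Y + 101 + L) * (2 * L)) := by
    have a1 : (L : ℝ) * (2 * 2 ^ (10 * Y + 100)) ≤ 2 ^ (10 * Y + 101 + L) := by
      calc (L : ℝ) * (2 * 2 ^ (10 * Y + 100)) ≤ 2 ^ L * (2 * 2 ^ (10 * Y + 100)) :=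
            mul_le_mul_of_nonneg_right hL' (by positivity)
        _ = 2 ^ (10 * Y + 101 + L) := by
            rw [← pow_succ', ← pow_add]
            congr 1
            ring
    calc ((L : ℝ) * (2 * 2 ^ (10 * Y + 100))) ^ j ≤ (2 ^ (10 * Y + 101 + L)) ^ j :=
          pow_le_pow_left₀ (by positivity) a1 j
      _ ≤ (2 ^ (10 * Y + 101 + L)) ^ (2 * L) :=
          pow_le_pow_right₀ (one_le_pow₀ (by norm_num)) hj
      _ = 2 ^ ((10 * Y + 101 + L) * (2 * L)) := by rw [← pow_mul]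
  have h2 : ((S' : ℝ) + 1) ^ (k + 5) ≤ 2 ^ ((t + L + 1) * (k + 5)) := by
    rw [pow_mul]
    refine pow_le_pow_left₀ (by positivity) ?_ _
    rw [hS']
    push_cast
    have : (1 : ℝ) ≤ 2 ^ (t + L) := one_le_pow₀ (by norm_num)
    rw [pow_succ]
    linarith
  have h3 : ((L : ℝ) * (2 * 2 ^ (10 * Y + 100))) ^ j * ((S' : ℝ) + 1) ^ (k + 5) / 2 ^ w' ≤ 1 := by
    rw [div_le_one (by positivity)]
    calc ((L : ℝ) * (2 * 2 ^ (10 * Y + 100))) ^ j * ((S' : ℝ) + 1) ^ (k + 5) ≤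
          2 ^ ((10 * Y + 101 + L) * (2 * L)) * 2 ^ ((t + L + 1) * (k + 5)) :=
          mul_le_mul h1 h2 (by positivity) (by positivity)
      _ = 2 ^ ((10 * Y + 101 + L) * (2 * L) + (t + L + 1) * (k + 5)) := by rw [← pow_add]
      _ ≤ 2 ^ w' := pow_le_pow_right₀ (by norm_num) (by rw [hw']; omega)
  have h4 : (w' : ℝ) ^ j + ((L : ℝ) * (2 * 2 ^ (10 * Y + 100))) ^ j * ((S' : ℝ) + 1) ^ (k + 5) /
      2 ^ w' ≤ (128 * (w' : ℝ)) ^ j := by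
    have b1 : (1 : ℝ) ≤ (w' : ℝ) ^ j := one_le_pow₀ hw1
    have b2 : (128 : ℝ) ≤ 128 ^ j := by
      calc (128 : ℝ) = 128 ^ 1 := by norm_num
        _ ≤ 128 ^ j := pow_le_pow_right₀ (by norm_num) hj1
    calc _ ≤ (w' : ℝ) ^ j + 1 := by linarith
      _ ≤ 128 * (w' : ℝ) ^ j := by linarith
      _ ≤ 128 ^ j * (w' : ℝ) ^ j := mul_le_mul_of_nonneg_right b2 (by positivity)
      _ = (128 * (w' : ℝ)) ^ j := by rw [mul_pow]
  calc _ ≤ (128 * (w' : ℝ)) ^ (j * (k + 5)) * (128 * (w' : ℝ)) ^ j :=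
        mul_le_mul_of_nonneg_left h4 (by positivity)
    _ = ((128 * (w' : ℝ)) ^ (k + 6)) ^ j := by
        rw [← pow_add, ← pow_mul]
        congr 1
        ring

/-- The bound for `B`. -/
theorem bn_bd (k n w' : ℕ) (hw1 : 1 ≤ w') (hw' : w' ≤ 2 ^ n) (hn : 4 * (k + 6) + 8 ≤ n) :
    ((128 * (w' : ℝ)) ^ (k + 6)) ^ 2 + 1 ≤ 2 ^ n ^ 2 := by
  have h1 : 128 * (w' : ℝ) ≤ 2 ^ (n + 7) := by
    have : (w' : ℝ) ≤ 2 ^ n := by exact_mod_cast hw'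
    rw [pow_add]
    linarith
  have hw1' : (1 : ℝ) ≤ w' := by exact_mod_cast hw1
  have h0 : (1 : ℝ) ≤ ((128 * (w' : ℝ)) ^ (k + 6)) ^ 2 :=
    one_le_pow₀ (one_le_pow₀ (by linarith))
  have h2 : (n + 7) * (k + 6) * 2 + 1 ≤ n ^ 2 := by
    have a1 : (n + 7) * (k + 6) ≤ (n + n) * (k + 6) := Nat.mul_le_mul_right _ (by omega)
    have a2 : (4 * (k + 6) + 8) * n ≤ n * n := Nat.mul_le_mul_right _ hn
    have a3 : (n + n) * (k + 6) * 2 + 8 * n = (4 * (k + 6) + 8) * n := by ring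
    rw [pow_two]
    omega
  calc ((128 * (w' : ℝ)) ^ (k + 6)) ^ 2 + 1 ≤ ((128 * (w' : ℝ)) ^ (k + 6)) ^ 2 * 2 := by linarith
    _ ≤ ((2 ^ (n + 7)) ^ (k + 6)) ^ 2 * 2 := by gcongr
    _ = 2 ^ ((n + 7) * (k + 6) * 2 + 1) := by rw [pow_succ _ ((n + 7) * (k + 6) * 2), pow_mul, pow_mul]
    _ ≤ 2 ^ n ^ 2 := pow_le_pow_right₀ (by norm_num) h2

theorem prp (h1 : T_ERX) : T_PRP := by
  intro k C
  obtain ⟨K, hK⟩ : ∃ K, K = C + k + 20 := ⟨_, rfl⟩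
  obtain ⟨c0, hc0⟩ : ∃ c0, c0 = C + 5 := ⟨_, rfl⟩
  have hc0' : C + 5 ≤ 2 ^ c0 := by rw [hc0]; exact Nat.lt_two_pow_self.le
  obtain ⟨c, hc⟩ : ∃ c, c = 800320 * 2 ^ (c0 + 1) * K ^ 12 := ⟨_, rfl⟩
  filter_upwards [h1 k, eventually_ge_atTop (16 * (192 * c + 2)),
    eventually_ge_atTop (16 * (192 * 2 ^ (k + 2) + 2)),
    eventually_ge_atTop (4 * (k + 6) + 8 + 2 * c0)] with n hER hn1 hn2 hn3
  obtain ⟨X, hX⟩ : ∃ X, X = 2 ^ (n / 16) := ⟨_, rfl⟩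
  have hE2 := ev2 c n hn1
  have hE1 := ev1 _ n hn2
  rw [← hX] at hE1 hE2 ⊢
  have hX1 : 1 ≤ X := by rw [hX]; exact Nat.one_le_two_pow
  have hk1 : 1 ≤ 2 ^ (k + 2) := Nat.one_le_two_pow
  have hnX : n ≤ X := by
    have : 1 * n ≤ 2 ^ (k + 2) * n := Nat.mul_le_mul_right n hk1
    omega
  obtain ⟨M, hM⟩ : ∃ M, M = C * X + 1 := ⟨_, rfl⟩
  rw [← hM]
  obtain ⟨t, ht⟩ : ∃ t, t = M + 2 ^ (k + 2) * n + 1 := ⟨_, rfl⟩
  have hnt : n ≤ t := by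
    have : 1 * n ≤ 2 ^ (k + 2) * n := Nat.mul_le_mul_right n hk1
    omega
  obtain ⟨a, ha1, ha2⟩ := ex_a n t (by omega) hnt
  obtain ⟨Y, hY⟩ : ∃ Y, Y = n ^ 2 ^ a := ⟨_, rfl⟩
  obtain ⟨L, hL⟩ : ∃ L, L = M + 6 := ⟨_, rfl⟩
  obtain ⟨J, hJ⟩ : ∃ J, J = M + 4 := ⟨_, rfl⟩
  obtain ⟨p, hp⟩ : ∃ p, p = n / 16 + c0 := ⟨_, rfl⟩
  obtain ⟨ρ, hρ⟩ : ∃ ρ, ρ = (Y + 2) * L + L + 2 * M + 6 := ⟨_, rfl⟩
  obtain ⟨w, hw⟩ : ∃ w, w = 2 * ρ + (t + 1) * (k + 2) + 10 * n + 10 * k + 20 := ⟨_, rfl⟩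
  obtain ⟨S', hS'⟩ : ∃ S', S' = 2 ^ (t + L) := ⟨_, rfl⟩
  obtain ⟨w', hw'⟩ : ∃ w', w' = (10 * Y + 101 + L) * (2 * L) + (t + L + 1) * (k + 5) + 1 :=
    ⟨_, rfl⟩
  obtain ⟨Z, hZ⟩ : ∃ Z, Z = K * X := ⟨_, rfl⟩
  have hXZ : ∀ c, c ≤ K → c * X ≤ Z := fun c hc => by rw [hZ]; exact Nat.mul_le_mul_right X hc
  have hKX : K ≤ Z := by
    calc K = K * 1 := by ring
      _ ≤ K * X := Nat.mul_le_mul_left K hX1
      _ = Z := hZ.symm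
  have z1 : 20 ≤ Z := by omega
  have z0 : C * X + 20 * X ≤ Z := by
    have := hXZ (C + 20) (by omega)
    rw [add_mul] at this
    exact this
  have z2 : t ≤ Z := by omega
  have z3 : L ≤ Z := by omega
  have z4 : M ≤ Z := by omega
  have z5 : n ≤ Z := by omega
  have z6 : k + 5 ≤ Z := by omega
  have z7 : X ≤ Z := by omega
  have z8 : J ≤ Z := by omega
  have z9 : Y ≤ Z ^ 2 := by
    rw [hY]
    exact ha2.trans (Nat.pow_le_pow_left z2 2)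
  obtain ⟨u1, u2⟩ := nums Z Y L M t n k z1 z9 z3 z4 z2 z5 z6
  rw [← hρ, ← hw] at u1
  rw [← hw'] at u2
  have hpn : p + 1 ≤ n := by omega
  have hpX : 2 ^ (p + 1) = 2 ^ (c0 + 1) * X := by
    rw [hX, hp, ← pow_add]
    congr 1
    ring
  have hbig : 800320 * 2 ^ (c0 + 1) * Z ^ 12 * n ≤ 2 ^ n := by
    calc 800320 * 2 ^ (c0 + 1) * Z ^ 12 * n = c * n * X ^ 12 := by
          rw [hc, hZ, mul_pow]
          ring
      _ ≤ 2 ^ n := hE2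
  obtain ⟨v1, v2, v3, v4⟩ := big Z L w n p J c0 X z1 z3 u1 (by omega) z8 z7 hpX hpn hbig
  have hw1 : 1 ≤ w := by omega
  have hw1' : 1 ≤ w' := by omega
  have hER' := hER t w ρ (by omega) v2 (by rw [hw])
  refine ⟨a, t, w, S', J, p, 64 * w * n, L, (128 * (w' : ℝ)) ^ (k + 6), ?_⟩
  refine
    { n2 := by omega
      M1 := by omega
      Ma := by omega
      na := by omega
      ta := ha2
      Mt := by omega
      tw := ?_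
      LM := hL
      JM := by omega
      Jp := ?_
      pn := hpn
      GR := v1
      GQ := ?_
      S2 := ?_
      St := ?_
      SL := ?_
      B1 := ?_
      Bn := bn_bd k n w' hw1' (u2.trans v4) (by omega)
      BL := ?_
      er := ?_ }
  · have : (t + 1) * 1 ≤ (t + 1) * (k + 2) := Nat.mul_le_mul_left _ (by omega)
    omega
  · rw [hp, pow_add, ← hX]
    calc J = C * X + 5 * 1 := by omega
      _ ≤ C * X + 5 * X := by omega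
      _ = X * (C + 5) := by ring
      _ ≤ X * 2 ^ c0 := Nat.mul_le_mul_left X hc0'
  · have e1 := exp_bd w n hw1
    have e2 : (4 : ℝ) * (2 * J * (100 * (L * w : ℝ) ^ 2 + 1)) ≤ 2 ^ n := by exact_mod_cast v3
    have e3 : (0 : ℝ) ≤ 2 * J * (100 * (L * w : ℝ) ^ 2 + 1) := by positivity
    calc (2 * J : ℝ) * ((100 * (L * w : ℝ) ^ 2 + 1) * (1 - 1 / (64 * w)) ^ (64 * w * n))
        = (2 * J * (100 * (L * w : ℝ) ^ 2 + 1)) * (1 - 1 / (64 * w)) ^ (64 * w * n) := by ring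
      _ ≤ (2 * J * (100 * (L * w : ℝ) ^ 2 + 1)) * (1 / 2 ^ n) :=
          mul_le_mul_of_nonneg_left e1 e3
      _ ≤ (2 ^ n / 4) * (1 / 2 ^ n) := by
          refine mul_le_mul_of_nonneg_right ?_ (by positivity)
          linarith
      _ = 1 / 4 := by field_simp
  · rw [hS']
    calc 2 = 2 ^ 1 := by norm_num
      _ ≤ 2 ^ (t + L) := Nat.pow_le_pow_right (by norm_num) (by omega)
  · rw [hS']
    exact Nat.pow_le_pow_right (by norm_num) (by omega)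
  · rw [hS']
    calc L + 1 ≤ 2 ^ L := Nat.lt_two_pow_self
      _ ≤ 2 ^ (t + L) := Nat.pow_le_pow_right (by norm_num) (by omega)
  · have : (1 : ℝ) ≤ w' := by exact_mod_cast hw1'
    exact one_le_pow₀ (by linarith)
  · intro j hj1 hj2
    refine ⟨w', hw1', ?_⟩
    have := bl_bd k Y L t j w' S' hS' hw' hj1 hj2
    rw [hY] at this
    exact this
  · have := er_bd Y L M ρ _ (by omega) (by omega) hρ hER'
    rw [hY] at this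
    exact this

end Pool.Agent.H87.PW.PRP
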